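import Pool.Agent.Helper53.CTG.Goals

/-!
# PROJECT CTG, packet ACC
-/

namespace Pool.Agent.Helper51.CTG

open Pool.Agent.Helper53.CTG
open Pool.Agent.Helper1.TE (Gad app word)

theorem word_lt (w : List Bool) (i : ℕ) : ∀ b, word w i b < 2 ^ b := by
  intro b
  induction b with
  | zero => simp [word]
  | succ b ih =>
    simp only [word, pow_succ]
    have : ((w.getD (i + b) false).toNat) ≤ 1 := Bool.toNat_le _
    omega

theorem enc_lt {K a y z : ℕ} (ha : a < K) (hy : y < K) (hz : z < K) : enc K a y z < K ^ 3 := by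
  have h1 : (y + 1) * K ≤ K * K := Nat.mul_le_mul_right _ hy
  have h2 : (a + 1) * K ^ 2 ≤ K * K ^ 2 := Nat.mul_le_mul_right _ ha
  have h3 : K * K ^ 2 = K ^ 3 := by ring
  have h4 : K * K = K ^ 2 := by ring
  unfold enc
  rw [h3] at h2
  rw [h4] at h1
  rw [Nat.add_mul, Nat.one_mul] at h1 h2
  omega

theorem cut_lt {K : ℕ} (q c n : ℕ) {x : ℕ} (h : x < K) : cut q c n x < K := by
  unfold cut
  split_ifs
  · exact (Nat.mod_le _ _).trans_lt h
  · exact h

theorem ev_lt {K : ℕ} {t : ℕ → ℕ → ℕ → ℕ → ℕ → ℕ} (ht : ∀ m v x y z, t m v x y z < K)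
    (q c n v x : ℕ) : ev t q c n v x < K := by
  cases n <;> exact ht _ _ _ _ _

theorem can_lt {K : ℕ} (hK : 0 < K) {t : ℕ → ℕ → ℕ → ℕ → ℕ → ℕ}
    (ht : ∀ m v x y z, t m v x y z < K) (q c : ℕ) :
    ∀ n v X τ : ℕ, X < K → can K t q c n v X τ < K ^ 3 := by
  intro n
  induction n with
  | zero =>
    intro v X τ _
    simp only [can]
    positivity
  | succ n ih =>
    intro v X τ hX
    have h0 : 0 < K ^ 3 := by positivity
    rw [can]
    split_ifs
    · exact ih _ _ _ hX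
    · exact h0
    · exact ih _ _ _ (cut_lt _ _ _ (ht _ _ _ _ _))
    · exact ih _ _ _ (cut_lt _ _ _ (ht _ _ _ _ _))
    · exact h0
    · exact enc_lt hX hK hK
    · exact enc_lt hX (ev_lt ht _ _ _ _ _) (ev_lt ht _ _ _ _ _)
    · exact enc_lt hX (ev_lt ht _ _ _ _ _) hK

theorem canR_lt {K : ℕ} (hK : 0 < K) {t : ℕ → ℕ → ℕ → ℕ → ℕ → ℕ}
    (ht : ∀ m v x y z, t m v x y z < K) (N q c X τ : ℕ) (hX : X < K) :
    canR K t N q c X τ < K ^ 3 := by
  unfold canR
  split_ifs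
  · exact can_lt hK ht q c _ _ _ _ hX
  · positivity

theorem gACC : GoalACC := by
  intro hPB hA hOK tst w N q b c hq hN hb hc
  have hW : 2 ^ (3 * b) ≤ 2 ^ Et N q b c := (hPB N q b c hq hN hb hc).2.2.2.2.2.2.2.1
  have hg := hOK b (2 ^ Et N q b c) hb hW
  have hcK : 2 ^ c ≤ (gadC b (2 ^ Et N q b c)).K := Nat.pow_le_pow_right (by norm_num) hc
  have ht : ∀ m v x y z, tabV b (dat w N q b c) m v x y z < (gadC b (2 ^ Et N q b c)).K :=
    fun m v x y z => word_lt _ _ _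
  have hK : 0 < (gadC b (2 ^ Et N q b c)).K := by
    show 0 < 2 ^ b
    positivity
  have hK3 : (gadC b (2 ^ Et N q b c)).K ^ 3 = 8 ^ b := by
    show (2 ^ b) ^ 3 = 8 ^ b
    rw [← pow_mul, mul_comm, pow_mul]; norm_num
  have hV : ∀ j : ℕ, (gadC b (2 ^ Et N q b c)).V ((fun _ : ℕ => ((0 : ℕ), (0 : ℕ))) j) := by
    intro j
    show 0 < (36 * b + Rb b) ^ (4 * b + 2)
    positivity
  have key : ∀ (γ : ℕ → ℕ) (s' : (ℕ → ℕ × ℕ) × ℕ), (∀ τ, γ τ < 8 ^ b) →
      (runs (opM tst w N q b c) γ (13 ^ Nt N q) (fun _ => (0, 0), 0) = some s' ↔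
        (∀ τ < 13 ^ Nt N q, γ τ = canR (2 ^ b) (tabV b (dat w N q b c)) N q c (0 % 2 ^ c) τ) ∧
        ∃ z, app (gadC b (2 ^ Et N q b c)) tst 0
          (ev (tabV b (dat w N q b c)) q c N 1 (0 % 2 ^ c)) (0, 0) = some z ∧
          s' = (Function.update (fun _ => (0, 0)) (3 * q + 2 * (Hb N q % 2)) z, 0)) := by
    intro γ s' hγ
    exact hA (gadC b (2 ^ Et N q b c)) hg tst (tabV b (dat w N q b c)) N q c ⟨ht, hcK⟩ hq hN
      γ (fun _ => (0, 0)) 0 s' (fun τ => by rw [hK3]; exact hγ τ) hV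
  have hroot : ev (tabV b (dat w N q b c)) q c N 1 (0 % 2 ^ c) =
      rootV N q b c (dat w N q b c) := by
    rw [Nat.zero_mod]; rfl
  constructor
  · constructor
    · rintro ⟨s', γ, hγ, hs'⟩
      obtain ⟨-, z, hz, -⟩ := (key γ s' hγ).1 hs'
      rw [hroot] at hz
      intro h0
      simp [app, h0] at hz
    · intro h1
      refine ⟨(Function.update (fun _ => (0, 0)) (3 * q + 2 * (Hb N q % 2)) (0, 0), 0),
        fun τ => canR (2 ^ b) (tabV b (dat w N q b c)) N q c (0 % 2 ^ c) τ, ?_, ?_⟩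
      · intro τ
        rw [← hK3]
        exact canR_lt hK ht _ _ _ _ _ (by rw [Nat.zero_mod]; exact hK)
      · refine (key _ _ ?_).2 ⟨fun τ _ => rfl, (0, 0), ?_, rfl⟩
        · intro τ
          rw [← hK3]
          exact canR_lt hK ht _ _ _ _ _ (by rw [Nat.zero_mod]; exact hK)
        · rw [hroot]
          simp [app, h1]
  · intro γ γ' hγ hγ' h h' τ hτ
    obtain ⟨s, hs⟩ := Option.isSome_iff_exists.1 h
    obtain ⟨s', hs'⟩ := Option.isSome_iff_exists.1 h'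
    rw [((key γ s hγ).1 hs).1 τ hτ, ((key γ' s' hγ').1 hs').1 τ hτ]

end Pool.Agent.Helper51.CTG
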